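import Mathlib

set_option autoImplicit false

namespace Pool.Agent.Results.MP_16faa7_an.BetaConvex

/-- The set `S_α` of the problem. -/
def S (γ α : ℝ) : Set ℝ :=
  {β | 0 < β ∧ ∀ z ∈ Set.Ioo (0 : ℝ) 1, γ * z ^ (β - α) * (1 - z ^ α) ≤ 1 - z}

/-- The threshold exponent `β(α) = inf S_α`. -/
noncomputable def beta (γ α : ℝ) : ℝ := sInf (S γ α)

theorem one_mem {γ α : ℝ} (hγ : 1 < γ) (hα : α ∈ Set.Ioo (0 : ℝ) (1 / γ)) : (1 : ℝ) ∈ S γ α := by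
  refine ⟨one_pos, fun z hz => ?_⟩
  have hγ0 : (0 : ℝ) < γ := by linarith
  have hα1 : α * γ < 1 := by
    have := hα.2
    rwa [lt_div_iff₀ hγ0] at this
  have hα0 := hα.1
  have hα1' : α ≤ 1 := by nlinarith
  have hz0 : 0 < z := hz.1
  have hz1 : z < 1 := hz.2
  have hb : (1 + (1 / z - 1)) ^ α ≤ 1 + α * (1 / z - 1) := by
    apply rpow_one_add_le_one_add_mul_self _ hα0.le hα1'
    have : 0 < 1 / z := by positivity
    linarith
  have hb2 : (1 / z) ^ α ≤ 1 + α * (1 / z - 1) := by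
    have : 1 + (1 / z - 1) = 1 / z := by ring
    rwa [this] at hb
  have hzα : 0 < z ^ α := Real.rpow_pos_of_pos hz0 _
  have h1 : z ^ α * (1 / z) ^ α = 1 := by
    rw [← Real.mul_rpow hz0.le (by positivity)]
    rw [mul_one_div_cancel hz0.ne', Real.one_rpow]
  have h2 : 1 - z ^ α ≤ z ^ α * (α * (1 / z - 1)) := by
    have := mul_le_mul_of_nonneg_left hb2 hzα.le
    rw [h1] at this
    linarith
  have h3 : z ^ (1 - α) * z ^ α = z := by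
    rw [← Real.rpow_add hz0]; simp
  have h4 : 0 < z ^ (1 - α) := Real.rpow_pos_of_pos hz0 _
  calc γ * z ^ (1 - α) * (1 - z ^ α) ≤ γ * z ^ (1 - α) * (z ^ α * (α * (1 / z - 1))) := by
        apply mul_le_mul_of_nonneg_left h2; positivity
    _ = (z ^ (1 - α) * z ^ α) * (α * γ) * (1 / z - 1) := by ring
    _ = (α * γ) * (1 - z) := by rw [h3]; field_simp
    _ ≤ 1 * (1 - z) := by
        apply mul_le_mul_of_nonneg_right hα1.le; linarith
    _ = 1 - z := one_mul _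

/-- The key interpolation step. -/
theorem interp {γ α₁ α₂ β₁ β₂ s t : ℝ} (hγ : 1 < γ) (hα₁ : 0 < α₁) (hα₂ : 0 < α₂)
    (hs : 0 ≤ s) (ht : 0 ≤ t) (hst : s + t = 1) (h₁ : β₁ ∈ S γ α₁) (h₂ : β₂ ∈ S γ α₂) :
    s * β₁ + t * β₂ ∈ S γ (s * α₁ + t * α₂) := by
  obtain ⟨hb₁, H₁⟩ := h₁
  obtain ⟨hb₂, H₂⟩ := h₂
  have hpos : ∀ x y : ℝ, 0 < x → 0 < y → 0 < s * x + t * y := by
    intro x y hx hy
    rcases eq_or_lt_of_le hs with h | h
    · have : t = 1 := by linarith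
      rw [← h, this]; linarith
    · have := mul_pos h hx
      have := mul_nonneg ht hy.le
      linarith
  refine ⟨hpos _ _ hb₁ hb₂, fun z hz => ?_⟩
  set α := s * α₁ + t * α₂ with hαdef
  have hα : 0 < α := hpos _ _ hα₁ hα₂
  have hz0 : 0 < z := hz.1
  have hz1 : z < 1 := hz.2
  have hγ0 : (0 : ℝ) < γ := by linarith
  -- w = z ^ α
  set w := z ^ α with hw
  have hw0 : 0 < w := Real.rpow_pos_of_pos hz0 _
  have hw1 : w < 1 := Real.rpow_lt_one hz0.le hz1 hα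
  have hzi : ∀ a : ℝ, 0 < a → w ^ (1 / a) ∈ Set.Ioo (0 : ℝ) 1 := by
    intro a ha
    exact ⟨Real.rpow_pos_of_pos hw0 _, Real.rpow_lt_one hw0.le hw1 (by positivity)⟩
  have key : ∀ a b : ℝ, 0 < a → (∀ z ∈ Set.Ioo (0 : ℝ) 1, γ * z ^ (b - a) * (1 - z ^ a) ≤ 1 - z) →
      γ * w ^ ((b - a) / a) * (1 - w) ≤ 1 - w ^ (1 / a) := by
    intro a b ha H
    have := H _ (hzi a ha)
    rw [← Real.rpow_mul hw0.le, ← Real.rpow_mul hw0.le] at this
    have e1 : 1 / a * (b - a) = (b - a) / a := by ring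
    have e2 : 1 / a * a = 1 := by field_simp
    rw [e1, e2, Real.rpow_one] at this
    exact this
  have K₁ := key α₁ β₁ hα₁ H₁
  have K₂ := key α₂ β₂ hα₂ H₂
  set lam := s * α₁ / α with hlam
  set mu := t * α₂ / α with hmu
  have hlam0 : 0 ≤ lam := by positivity
  have hmu0 : 0 ≤ mu := by positivity
  have hlm : lam + mu = 1 := by
    rw [hlam, hmu, ← add_div, ← hαdef, div_self hα.ne']
  have hwz : z = w ^ (1 / α) := by
    rw [hw, ← Real.rpow_mul hz0.le, mul_one_div_cancel hα.ne', Real.rpow_one]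
  have h1w : 0 < 1 - w := by linarith
  -- product of the powers
  have P₁ : (γ * w ^ ((β₁ - α₁) / α₁) * (1 - w)) ^ lam ≤ (1 - w ^ (1 / α₁)) ^ lam := by
    apply Real.rpow_le_rpow _ K₁ hlam0
    have := Real.rpow_pos_of_pos hw0 ((β₁ - α₁) / α₁)
    positivity
  have P₂ : (γ * w ^ ((β₂ - α₂) / α₂) * (1 - w)) ^ mu ≤ (1 - w ^ (1 / α₂)) ^ mu := by
    apply Real.rpow_le_rpow _ K₂ hmu0
    have := Real.rpow_pos_of_pos hw0 ((β₂ - α₂) / α₂)
    positivity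
  have hnn : ∀ a : ℝ, 0 < a → 0 < 1 - w ^ (1 / a) := fun a ha => by
    have := (hzi a ha).2; linarith
  have hprod : (γ * w ^ ((β₁ - α₁) / α₁) * (1 - w)) ^ lam *
      (γ * w ^ ((β₂ - α₂) / α₂) * (1 - w)) ^ mu =
      γ * z ^ (s * β₁ + t * β₂ - α) * (1 - w) := by
    have hw1' := Real.rpow_pos_of_pos hw0 ((β₁ - α₁) / α₁)
    have hw2' := Real.rpow_pos_of_pos hw0 ((β₂ - α₂) / α₂)
    rw [Real.mul_rpow (by positivity) h1w.le, Real.mul_rpow hγ0.le hw1'.le,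
      Real.mul_rpow (by positivity) h1w.le, Real.mul_rpow hγ0.le hw2'.le,
      ← Real.rpow_mul hw0.le, ← Real.rpow_mul hw0.le]
    have e1 : γ ^ lam * γ ^ mu = γ := by
      rw [← Real.rpow_add hγ0, hlm, Real.rpow_one]
    have e2 : (1 - w) ^ lam * (1 - w) ^ mu = 1 - w := by
      rw [← Real.rpow_add h1w, hlm, Real.rpow_one]
    have e3 : w ^ ((β₁ - α₁) / α₁ * lam) * w ^ ((β₂ - α₂) / α₂ * mu) =
        z ^ (s * β₁ + t * β₂ - α) := by
      rw [← Real.rpow_add hw0, hw, ← Real.rpow_mul hz0.le]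
      congr 1
      rw [hlam, hmu, hαdef]
      have : s * α₁ + t * α₂ ≠ 0 := hα.ne'
      field_simp
      ring
    calc _ = (γ ^ lam * γ ^ mu) * (w ^ ((β₁ - α₁) / α₁ * lam) * w ^ ((β₂ - α₂) / α₂ * mu)) *
          ((1 - w) ^ lam * (1 - w) ^ mu) := by ring
      _ = _ := by rw [e1, e2, e3]
  have hwp : (w ^ (1 / α₁)) ^ lam * (w ^ (1 / α₂)) ^ mu = z := by
    rw [← Real.rpow_mul hw0.le, ← Real.rpow_mul hw0.le, ← Real.rpow_add hw0]
    rw [hwz]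
    congr 1
    rw [hlam, hmu]
    field_simp
    exact hst
  have am1 := Real.geom_mean_le_arith_mean2_weighted hlam0 hmu0 (hnn α₁ hα₁).le (hnn α₂ hα₂).le hlm
  have am2 := Real.geom_mean_le_arith_mean2_weighted hlam0 hmu0 (hzi α₁ hα₁).1.le
    (hzi α₂ hα₂).1.le hlm
  rw [hwp] at am2
  rw [← hprod]
  have hmul := mul_le_mul P₁ P₂ (by
    have := Real.rpow_pos_of_pos hw0 ((β₂ - α₂) / α₂)
    positivity) (Real.rpow_nonneg (hnn α₁ hα₁).le _)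
  nlinarith [hmul, am1, am2, hlm]

/-- For every `γ > 1` the sets `S_α`, `0 < α < 1/γ`, are nonempty (and bounded below by `0`), and
`α ↦ β(α) = inf S_α` is convex on `(0, 1/γ)`. -/
theorem result : ∀ γ : ℝ, 1 < γ →
    (∀ α ∈ Set.Ioo (0 : ℝ) (1 / γ), (S γ α).Nonempty ∧ BddBelow (S γ α)) ∧
    ConvexOn ℝ (Set.Ioo (0 : ℝ) (1 / γ)) (beta γ) := by
  intro γ hγ
  have hbdd : ∀ α, BddBelow (S γ α) := fun α => ⟨0, fun β hβ => hβ.1.le⟩
  refine ⟨fun α hα => ⟨⟨1, one_mem hγ hα⟩, hbdd α⟩, convex_Ioo _ _, ?_⟩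
  intro α₁ h₁ α₂ h₂ s t hs ht hst
  simp only [smul_eq_mul]
  have hmain : ∀ β₁ ∈ S γ α₁, ∀ β₂ ∈ S γ α₂, beta γ (s * α₁ + t * α₂) ≤ s * β₁ + t * β₂ :=
    fun β₁ hβ₁ β₂ hβ₂ => csInf_le (hbdd _) (interp hγ h₁.1 h₂.1 hs ht hst hβ₁ hβ₂)
  -- pass to the infimum
  apply le_of_forall_pos_le_add
  intro ε hε
  obtain ⟨β₁, hβ₁, hlt₁⟩ := Real.lt_sInf_add_pos ⟨1, one_mem hγ h₁⟩ hε
  obtain ⟨β₂, hβ₂, hlt₂⟩ := Real.lt_sInf_add_pos ⟨1, one_mem hγ h₂⟩ hε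
  have h := hmain β₁ hβ₁ β₂ hβ₂
  have e1 : s * β₁ ≤ s * (beta γ α₁ + ε) := mul_le_mul_of_nonneg_left hlt₁.le hs
  have e2 : t * β₂ ≤ t * (beta γ α₂ + ε) := mul_le_mul_of_nonneg_left hlt₂.le ht
  have e3 : s * ε + t * ε = ε := by rw [← add_mul, hst, one_mul]
  nlinarith

end Pool.Agent.Results.MP_16faa7_an.BetaConvex
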